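import Mathlib
import Pool.Agent.Lib.MP_a0c03c_an.Defs
import Pool.Agent.Lib.MP_a0c03c_an.Construct

set_option autoImplicit false

namespace Pool.Agent.Results.MP_a0c03c_an.QuotientFails

open Pool.Agent.Lib.MP_a0c03c_an

/-- **Negative answer to Q1.** There is a complex Banach algebra `A`, even a commutative one, with
finite-dimensional Jacobson radical such that `A` has property (S), while its quotient `B` by the
radical, with the quotient norm, does not have property (S). -/
theorem result :
    ∃ A : BanachAlgebra, (∀ a b : A, a * b = b * a) ∧ FiniteDimensional ℂ (rad A) ∧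
      PropertyS A ∧
      ∃ (B : BanachAlgebra) (φ : A →ₙₐ[ℂ] B), IsQuotient A B (rad A) φ ∧ ¬ PropertyS B :=
  ⟨bigA, fun a b => TA.mul_comm' a b, TA.rad_finiteDimensional, propertyS_TA,
    bigB, quot, isQuotient_quot, not_propertyS_TB⟩

end Pool.Agent.Results.MP_a0c03c_an.QuotientFails
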